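import Pool.Agent.H920R2.Km2

set_option autoImplicit false

namespace Pool.Agent.Results.MP_1cd45c_al.TriangleIdentity

open Finset LaurentPolynomial Pool.Agent.H920R2.Km

/-- The indeterminate `q`, as a unit of the ring of Laurent polynomials over the integers. -/
noncomputable def qT : (ℤ[T;T⁻¹])ˣ where
  val := T 1
  inv := T (-1)
  val_inv := by rw [← T_add]; simp
  inv_val := by rw [← T_add]; simp

/-- `A_n(q) = B_n(q)` for all `n ≥ 1`, as Laurent polynomials, and `B_n(q)` is the number of
strictly upper triangular matrices of size `n` with square zero over a field with `q` elements. -/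
theorem result.{v} :
    (∀ n : ℕ, ∑ r ∈ range (n + 2), rk qT (n + 1) r = tri qT n 0) ∧
    (∀ (F : Type v) [Field F] [Fintype F] (q : ℚˣ), (q : ℚ) = (Fintype.card F : ℚ) → ∀ n : ℕ,
      ((Nat.card {X : Matrix (Fin n) (Fin n) F //
        (∀ i j, j ≤ i → X i j = 0) ∧ X * X = 0} : ℕ) : ℚ) = ∑ r ∈ range (n + 1), rk q n r ∧
      ((Nat.card {X : Matrix (Fin (n + 1)) (Fin (n + 1)) F //
        (∀ i j, j ≤ i → X i j = 0) ∧ X * X = 0} : ℕ) : ℚ) = tri q n 0) := by
  classical
  refine ⟨fun n => main qT n, fun F _ _ q hq n => ⟨card_good q hq n, ?_⟩⟩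
  rw [card_good q hq (n + 1), main q n]

end Pool.Agent.Results.MP_1cd45c_al.TriangleIdentity
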